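import Mathlib

namespace Pool.Agent.H.MP_ff06a2_an

open Set Filter Topology Complex

noncomputable def ee (x : ℝ) : ℂ := exp (I * x)

lemma ee_norm (x : ℝ) : ‖ee x‖ = 1 := by
  rw [ee, mul_comm, norm_exp_ofReal_mul_I]

lemma ee_sub (x y : ℝ) : ‖ee x - ee y‖ = ‖exp (I * ((x - y : ℝ) : ℂ)) - 1‖ := by
  have : ee x - ee y = ee y * (exp (I * ((x - y : ℝ) : ℂ)) - 1) := by
    unfold ee
    rw [mul_sub, ← exp_add, mul_one]
    congr 2
    push_cast
    ring
  rw [this, norm_mul, ee_norm, one_mul]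

lemma ee_le (x y : ℝ) : ‖ee x - ee y‖ ≤ |x - y| := by
  rw [ee_sub]; exact Real.norm_exp_I_mul_ofReal_sub_one_le

lemma ee_two (x y : ℝ) : ‖ee x - ee y‖ ≤ 2 := by
  refine (norm_sub_le _ _).trans ?_
  rw [ee_norm, ee_norm]; norm_num

lemma ee_ge (x y : ℝ) (h0 : 0 ≤ x - y) (h1 : x - y ≤ 1) : (x - y) / 2 ≤ ‖ee x - ee y‖ := by
  rw [ee_sub, norm_exp_I_mul_ofReal_sub_one, Real.norm_eq_abs]
  refine le_trans ?_ (le_abs_self _)
  have hpi := Real.pi_gt_three
  have hpi4 := Real.pi_le_four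
  have := Real.mul_le_sin (x := (x - y) / 2) (by linarith) (by linarith)
  have h2 : 1 / 2 ≤ 2 / Real.pi := by rw [div_le_div_iff₀ (by norm_num) (by linarith)]; linarith
  nlinarith

noncomputable def term (j : ℕ) (m : ℕ) (t : ℝ) : ℂ :=
  if m % 3 = j then ((1 / 16 : ℝ) ^ m : ℝ) * ee (256 ^ m * t) else 0

lemma term_norm (j m : ℕ) (t : ℝ) : ‖term j m t‖ ≤ (1 / 16 : ℝ) ^ m := by
  unfold term
  split_ifs
  · rw [norm_mul, ee_norm, mul_one, norm_real, Real.norm_eq_abs, abs_of_pos (by positivity)]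
  · simp

lemma geo : Summable fun m : ℕ => (1 / 16 : ℝ) ^ m :=
  summable_geometric_of_lt_one (by norm_num) (by norm_num)

lemma term_summable (j : ℕ) (t : ℝ) : Summable fun m => term j m t :=
  Summable.of_norm_bounded geo fun m => term_norm j m t

noncomputable def gg (j : ℕ) (t : ℝ) : ℂ := ∑' m, term j m t

lemma gg_cont (j : ℕ) : Continuous (gg j) := by
  refine continuous_tsum (fun m => ?_) geo fun m t => term_norm j m t
  unfold term ee
  split_ifs <;> fun_prop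

lemma diff_eq (j m : ℕ) (s t : ℝ) : ‖term j m s - term j m t‖ =
    if m % 3 = j then (1 / 16 : ℝ) ^ m * ‖ee (256 ^ m * s) - ee (256 ^ m * t)‖ else 0 := by
  unfold term
  split_ifs
  · rw [← mul_sub, norm_mul, norm_real, Real.norm_eq_abs, abs_of_pos (by positivity)]
  · simp

lemma pow16 (m : ℕ) : (1 / 16 : ℝ) ^ m * 256 ^ m = 16 ^ m := by
  rw [← mul_pow]; norm_num

lemma diff_low (j m : ℕ) (s t : ℝ) (h : 0 ≤ s - t) :
    ‖term j m s - term j m t‖ ≤ 16 ^ m * (s - t) := by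
  rw [diff_eq]
  split_ifs
  · have := ee_le (256 ^ m * s) (256 ^ m * t)
    rw [← mul_sub, abs_of_nonneg (by positivity)] at this
    calc _ ≤ (1 / 16 : ℝ) ^ m * (256 ^ m * (s - t)) := by gcongr
      _ = _ := by rw [← mul_assoc, pow16]
  · positivity

lemma diff_high (j m : ℕ) (s t : ℝ) : ‖term j m s - term j m t‖ ≤ (1 / 16 : ℝ) ^ m * 2 := by
  rw [diff_eq]
  split_ifs
  · gcongr; exact ee_two _ _
  · positivity

lemma sum16 (n : ℕ) : ∑ m ∈ Finset.range n, (16 : ℝ) ^ m ≤ 16 ^ n / 15 := by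
  induction n with
  | zero => norm_num
  | succ n ih => rw [Finset.sum_range_succ, pow_succ]; linarith

lemma main_scale (n : ℕ) (s t : ℝ) (h1 : 1 / 256 < 256 ^ n * (s - t)) (h2 : 256 ^ n * (s - t) ≤ 1) :
    16 ^ n * (s - t) / 4 ≤ ‖gg (n % 3) s - gg (n % 3) t‖ := by
  have hd : 0 < s - t := by
    have : 0 < 256 ^ n * (s - t) := lt_trans (by norm_num) h1
    exact (mul_pos_iff_of_pos_left (by positivity)).1 this
  obtain ⟨D, hD⟩ : ∃ D : ℕ → ℂ, D = fun m => term (n % 3) m s - term (n % 3) m t := ⟨_, rfl⟩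
  have hs : Summable D := by rw [hD]; exact (term_summable _ _).sub (term_summable _ _)
  have e0 : gg (n % 3) s - gg (n % 3) t = ∑' m, D m := by
    rw [hD, gg, gg, (term_summable _ _).tsum_sub (term_summable _ _)]
  have z1 : D (n + 1) = 0 := by
    rw [hD, ← norm_eq_zero]; simp only; rw [diff_eq, if_neg (by omega)]
  have z2 : D (n + 2) = 0 := by
    rw [hD, ← norm_eq_zero]; simp only; rw [diff_eq, if_neg (by omega)]
  have e1 : ∑' m, D m = ∑ m ∈ Finset.range n, D m + D n + ∑' m, D (m + (n + 3)) := by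
    rw [← hs.sum_add_tsum_nat_add (n + 3), Finset.sum_range_succ, Finset.sum_range_succ,
      Finset.sum_range_succ, z1, z2, add_zero, add_zero]
  have b1 : ‖∑ m ∈ Finset.range n, D m‖ ≤ 16 ^ n * (s - t) / 15 := by
    calc _ ≤ ∑ m ∈ Finset.range n, ‖D m‖ := norm_sum_le _ _
      _ ≤ ∑ m ∈ Finset.range n, 16 ^ m * (s - t) :=
          Finset.sum_le_sum fun m _ => by rw [hD]; exact diff_low _ _ _ _ hd.le
      _ = (∑ m ∈ Finset.range n, (16 : ℝ) ^ m) * (s - t) := by rw [Finset.sum_mul]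
      _ ≤ 16 ^ n / 15 * (s - t) := by gcongr; exact sum16 n
      _ = _ := by ring
  have b2 : 16 ^ n * (s - t) / 2 ≤ ‖D n‖ := by
    rw [hD]; simp only; rw [diff_eq, if_pos rfl]
    have := ee_ge (256 ^ n * s) (256 ^ n * t) (by rw [← mul_sub]; positivity)
      (by rw [← mul_sub]; exact h2)
    rw [← mul_sub] at this
    calc 16 ^ n * (s - t) / 2 = (1 / 16 : ℝ) ^ n * (256 ^ n * (s - t) / 2) := by
          rw [← pow16 n]; ring
      _ ≤ _ := by gcongr
  have b3 : ‖∑' m, D (m + (n + 3))‖ ≤ 16 ^ n * (s - t) * (2 / 15) := by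
    have hh : HasSum (fun m : ℕ => (1 / 16 : ℝ) ^ m * ((1 / 16 : ℝ) ^ (n + 3) * 2))
        ((1 - 1 / 16)⁻¹ * ((1 / 16 : ℝ) ^ (n + 3) * 2)) :=
      (hasSum_geometric_of_lt_one (by norm_num) (by norm_num)).mul_right _
    refine (tsum_of_norm_bounded hh fun m => ?_).trans ?_
    · rw [hD, ← mul_assoc, ← pow_add]; exact diff_high _ _ _ _
    · have p1 : (0 : ℝ) < (1 / 16 : ℝ) ^ n := by positivity
      have : (1 / 16 : ℝ) ^ n * (1 / 256) ≤ 16 ^ n * (s - t) := by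
        rw [← pow16 n, mul_assoc]; gcongr
      rw [pow_add]
      nlinarith
  rw [e0, e1]
  have t1 : ‖D n‖ ≤ ‖∑ m ∈ Finset.range n, D m + D n + ∑' m, D (m + (n + 3))‖ +
      ‖∑ m ∈ Finset.range n, D m‖ + ‖∑' m, D (m + (n + 3))‖ := by
    have : D n = (∑ m ∈ Finset.range n, D m + D n + ∑' m, D (m + (n + 3))) -
        ∑ m ∈ Finset.range n, D m - ∑' m, D (m + (n + 3)) := by ring
    calc ‖D n‖ = _ := congrArg norm this
      _ ≤ _ := (norm_sub_le _ _).trans (by gcongr; exact norm_sub_le _ _)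
  have : 0 < 16 ^ n * (s - t) := by positivity
  linarith

lemma lower (s t : ℝ) (h0 : 0 < s - t) (h1 : s - t ≤ 1) :
    ∃ j < 3, (s - t) / 4096 ≤ ‖gg j s - gg j t‖ ^ 2 := by
  obtain ⟨n, hn1, hn2⟩ := exists_nat_pow_near (x := (s - t)⁻¹) (y := 256)
    ((one_le_inv₀ h0).2 h1) (by norm_num)
  have a1 : 256 ^ n * (s - t) ≤ 1 := by
    rw [← le_div_iff₀ h0, one_div]; exact hn1
  have a2 : 1 / 256 < 256 ^ n * (s - t) := by
    rw [inv_lt_iff_one_lt_mul₀ h0, pow_succ] at hn2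
    nlinarith
  refine ⟨n % 3, Nat.mod_lt _ (by norm_num), ?_⟩
  have b := pow_le_pow_left₀ (by positivity) (main_scale n s t a2 a1) 2
  refine le_trans ?_ b
  have e : (16 : ℝ) ^ n * 16 ^ n = 256 ^ n := by rw [← mul_pow]; norm_num
  have : (16 ^ n * (s - t) / 4) ^ 2 = 256 ^ n * (s - t) * (s - t) / 16 := by rw [← e]; ring
  rw [this]
  nlinarith

noncomputable def gam (t : ℝ) : EuclideanSpace ℝ (Fin 6) :=
  WithLp.toLp 2 ![(gg 0 t).re, (gg 0 t).im, (gg 1 t).re, (gg 1 t).im, (gg 2 t).re, (gg 2 t).im]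

lemma gam_cont : Continuous gam := by
  have h0 := gg_cont 0
  have h1 := gg_cont 1
  have h2 := gg_cont 2
  refine (PiLp.continuous_toLp 2 _).comp (continuous_pi fun i => ?_)
  fin_cases i <;> simp <;> fun_prop

lemma gam_sq (s t : ℝ) : ‖gam s - gam t‖ ^ 2 =
    ‖gg 0 s - gg 0 t‖ ^ 2 + ‖gg 1 s - gg 1 t‖ ^ 2 + ‖gg 2 s - gg 2 t‖ ^ 2 := by
  rw [EuclideanSpace.real_norm_sq_eq, Fin.sum_univ_six]
  simp only [Complex.sq_norm, normSq_apply, gam]
  simp
  ring

lemma gam_lower' (s t : ℝ) (h0 : 0 ≤ s - t) (h1 : s - t ≤ 1) :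
    (s - t) / 4096 ≤ ‖gam s - gam t‖ ^ 2 := by
  rcases h0.eq_or_lt with h | h
  · rw [← h, zero_div]; positivity
  obtain ⟨j, hj, hh⟩ := lower s t h h1
  rw [gam_sq]
  have a0 := sq_nonneg ‖gg 0 s - gg 0 t‖
  have a1 := sq_nonneg ‖gg 1 s - gg 1 t‖
  have a2 := sq_nonneg ‖gg 2 s - gg 2 t‖
  interval_cases j <;> linarith

theorem gam_lower (s t : unitInterval) : |(s : ℝ) - t| / 4096 ≤ ‖gam s - gam t‖ ^ 2 := by
  rcases le_total (t : ℝ) s with h | h
  · rw [abs_of_nonneg (by linarith)]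
    exact gam_lower' _ _ (by linarith) (by linarith [s.2.2, t.2.1])
  · rw [abs_sub_comm, norm_sub_rev, abs_of_nonneg (by linarith)]
    exact gam_lower' _ _ (by linarith) (by linarith [t.2.2, s.2.1])

end Pool.Agent.H.MP_ff06a2_an
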